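import Mathlib

/-!
# Heintze groups of Carnot type and their left-invariant metrics: definitions

Left-invariant Riemannian metrics on a simply connected Lie group `G` are the same thing as inner
products on its Lie algebra `𝔤`, and their curvature is computed with the Levi-Civita connection
on left-invariant vector fields.
-/

set_option autoImplicit false

namespace Q198.Heintze

/-- `𝔤` is the Lie algebra of a Heintze group of Carnot type whose derived group has step `s`: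
it is the direct sum `ℝ A ⊕ V 1 ⊕ ⋯ ⊕ V s`, where `𝔫 = V 1 ⊕ ⋯ ⊕ V s` is a stratified nilpotent
Lie algebra of step `s`, i.e. `[V 1, V i] = V (i + 1)` for `1 ≤ i < s`, `[V 1, V s] = 0` and
`V s ≠ 0`, and where `ad A` is the multiplication by `i` on `V i`. -/
structure IsHeintzeCarnot (𝔤 : Type*) [LieRing 𝔤] [LieAlgebra ℝ 𝔤] (s : ℕ)
    (V : ℕ → Submodule ℝ 𝔤) (A : 𝔤) : Prop where
  one_le : 1 ≤ s
  ne_zero : A ≠ 0
  isInternal : DirectSum.IsInternal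
    (fun i : Fin (s + 1) => if i = 0 then Submodule.span ℝ {A} else V i)
  bracket : ∀ i, 1 ≤ i → i < s →
    Submodule.span ℝ {z | ∃ x ∈ V 1, ∃ y ∈ V i, z = ⁅x, y⁆} = V (i + 1)
  bracket_top : ∀ x ∈ V 1, ∀ y ∈ V s, ⁅x, y⁆ = 0
  top_ne_bot : V s ≠ ⊥
  ad_apply : ∀ i, 1 ≤ i → i ≤ s → ∀ x ∈ V i, ⁅A, x⁆ = (i : ℝ) • x

/-- `B` is an inner product. On the Lie algebra of `G` this is a left-invariant Riemannian metric
of `G`. -/
def IsInnerProduct {E : Type*} [AddCommGroup E] [Module ℝ E] (B : E →ₗ[ℝ] E →ₗ[ℝ] ℝ) : Prop :=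
  (∀ x y, B x y = B y x) ∧ ∀ x, x ≠ 0 → 0 < B x x

section Metric

variable {𝔤 : Type*} [LieRing 𝔤] [LieAlgebra ℝ 𝔤]

/-- `D` is the Levi-Civita connection of the left-invariant metric `B` on left-invariant vector
fields: `D x y = ∇_x y` is torsion free and compatible with the metric. It exists and is unique,
see `existsUnique_leviCivita`. -/
def IsLeviCivita (B : 𝔤 →ₗ[ℝ] 𝔤 →ₗ[ℝ] ℝ) (D : 𝔤 →ₗ[ℝ] 𝔤 →ₗ[ℝ] 𝔤) : Prop :=
  (∀ x y, D x y - D y x = ⁅x, y⁆) ∧ ∀ x y z, B (D x y) z + B y (D x z) = 0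

/-- The curvature tensor `R(x, y) z = ∇_x ∇_y z - ∇_y ∇_x z - ∇_[x, y] z`. -/
def curv (D : 𝔤 →ₗ[ℝ] 𝔤 →ₗ[ℝ] 𝔤) (x y z : 𝔤) : 𝔤 :=
  D x (D y z) - D y (D x z) - D ⁅x, y⁆ z

/-- The sectional curvature `⟨R(x, y) y, x⟩ / (|x|² |y|² - ⟨x, y⟩²)` of the plane spanned by two
linearly independent vectors `x` and `y`. -/
noncomputable def sec (B : 𝔤 →ₗ[ℝ] 𝔤 →ₗ[ℝ] ℝ) (D : 𝔤 →ₗ[ℝ] 𝔤 →ₗ[ℝ] 𝔤) (x y : 𝔤) : ℝ :=
  B (curv D x y y) x / (B x x * B y y - B x y ^ 2)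

end Metric

end Q198.Heintze
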