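import Pool.Agent.Q198.Heintze.Defs

/-!
# Heintze groups of Carnot type: the curvature estimate
-/

set_option autoImplicit false

namespace Q198.Heintze

/-! ### Riesz, and existence and uniqueness of the connection -/

theorem inner_injective {E : Type*} [AddCommGroup E] [Module ℝ E] {B : E →ₗ[ℝ] E →ₗ[ℝ] ℝ}
    (hB : IsInnerProduct B) {u v : E} (h : ∀ z, B u z = B v z) : u = v := by
  by_contra hne
  have := hB.2 (u - v) (sub_ne_zero.mpr hne)
  rw [map_sub B, LinearMap.sub_apply, h (u - v), sub_self] at this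
  exact lt_irrefl _ this

theorem exists_riesz {E : Type*} [AddCommGroup E] [Module ℝ E] [FiniteDimensional ℝ E]
    {B : E →ₗ[ℝ] E →ₗ[ℝ] ℝ} (hB : IsInnerProduct B) :
    ∃ e : E ≃ₗ[ℝ] (E →ₗ[ℝ] ℝ), ∀ φ z, B (e.symm φ) z = φ z := by
  have hinj : Function.Injective B := by
    intro u v h
    exact inner_injective hB fun z => by rw [h]
  let e : E ≃ₗ[ℝ] (E →ₗ[ℝ] ℝ) :=
    LinearEquiv.ofInjectiveOfFinrankEq B hinj (Subspace.dual_finrank_eq).symm
  refine ⟨e, fun φ z => ?_⟩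
  have : e (e.symm φ) = φ := e.apply_symm_apply φ
  exact LinearMap.congr_fun this z

section Metric

variable {𝔤 : Type*} [LieRing 𝔤] [LieAlgebra ℝ 𝔤]

/-- Every left-invariant metric has one and only one Levi-Civita connection. -/
theorem existsUnique_leviCivita [FiniteDimensional ℝ 𝔤]
    (B : 𝔤 →ₗ[ℝ] 𝔤 →ₗ[ℝ] ℝ) (hB : IsInnerProduct B) : ∃! D, IsLeviCivita B D := by
  obtain ⟨e, he⟩ := exists_riesz hB
  let φ : 𝔤 → 𝔤 → (𝔤 →ₗ[ℝ] ℝ) := fun x y =>
    (1 / 2 : ℝ) • (B ⁅x, y⁆ - (B.flip x) ∘ₗ (LieAlgebra.ad ℝ 𝔤 y) -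
      (B.flip y) ∘ₗ (LieAlgebra.ad ℝ 𝔤 x))
  have hφ : ∀ x y z, φ x y z = (1 / 2) * (B ⁅x, y⁆ z - B ⁅y, z⁆ x - B ⁅x, z⁆ y) := by
    intro x y z; simp [φ]
  let D : 𝔤 →ₗ[ℝ] 𝔤 →ₗ[ℝ] 𝔤 := LinearMap.mk₂ ℝ (fun x y => e.symm (φ x y))
    (by
      intro x x' y
      rw [← map_add]; congr 1; ext z
      simp only [LinearMap.add_apply, hφ, add_lie, map_add, LinearMap.add_apply]; ring)
    (by
      intro c x y
      rw [← map_smul]; congr 1; ext z
      simp only [LinearMap.smul_apply, hφ, smul_lie, map_smul, LinearMap.smul_apply,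
        smul_eq_mul]; ring)
    (by
      intro x y y'
      rw [← map_add]; congr 1; ext z
      simp only [LinearMap.add_apply, hφ, add_lie, lie_add, map_add, LinearMap.add_apply]; ring)
    (by
      intro c x y
      rw [← map_smul]; congr 1; ext z
      simp only [LinearMap.smul_apply, hφ, smul_lie, lie_smul, map_smul, LinearMap.smul_apply,
        smul_eq_mul]; ring)
  have hD : ∀ x y z, B (D x y) z = (1 / 2) * (B ⁅x, y⁆ z - B ⁅y, z⁆ x - B ⁅x, z⁆ y) := by
    intro x y z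
    rw [← hφ]; exact he _ _
  refine ⟨D, ⟨fun x y => ?_, fun x y z => ?_⟩, fun D' hD' => ?_⟩
  · apply inner_injective hB
    intro z
    rw [map_sub B, LinearMap.sub_apply, hD, hD, ← lie_skew x y]
    simp only [map_neg, LinearMap.neg_apply]
    ring
  · rw [hB.1 y, hD, hD, ← lie_skew y z, hB.1 ⁅x, y⁆ z, hB.1 ⁅x, z⁆ y]
    rw [← lie_skew x y, ← lie_skew x z]
    simp only [map_neg, LinearMap.neg_apply, hB.1 y, hB.1 z]
    ring
  · ext x y
    apply inner_injective hB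
    intro z
    rw [hD]
    have t := hD'.1
    have m := hD'.2
    have h1 := m x y z
    have h2 := m y z x
    have h3 := m z x y
    have t1 := congrArg (fun u => B u z) (t x y)
    have t2 := congrArg (fun u => B u x) (t y z)
    have t3 := congrArg (fun u => B u y) (t x z)
    simp only [map_sub, LinearMap.sub_apply] at t1 t2 t3
    rw [hB.1 y] at h1
    rw [hB.1 z] at h2
    rw [hB.1 x] at h3
    linarith

/-! ### Curvature estimates for planes containing the normal to the derived algebra -/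

theorem nabla_normal {B : 𝔤 →ₗ[ℝ] 𝔤 →ₗ[ℝ] ℝ} (hB : IsInnerProduct B)
    {D : 𝔤 →ₗ[ℝ] 𝔤 →ₗ[ℝ] 𝔤} (hD : IsLeviCivita B D) {n : Submodule ℝ 𝔤} {N : 𝔤}
    (hn : ∀ x y : 𝔤, ⁅x, y⁆ ∈ n) (hN : ∀ y ∈ n, B N y = 0) : D N N = 0 := by
  have t := hD.1
  have m := hD.2
  have sy := hB.1
  apply inner_injective hB
  intro z
  have h1 := m N N z
  have h2 := congrArg (fun u => B u N) (t N z)
  simp only [map_sub, LinearMap.sub_apply] at h2
  have h3 := m z N N
  have h4 : B ⁅N, z⁆ N = 0 := by rw [sy]; exact hN _ (hn _ _)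
  rw [sy N] at h1 h3
  simp only [map_zero, LinearMap.zero_apply]
  linarith

/-- The plane of `N` and of an eigenvector of `ad N` with eigenvalue `ν` has curvature at least
`-ν² / |N|²`. -/
theorem eigen_estimate {B : 𝔤 →ₗ[ℝ] 𝔤 →ₗ[ℝ] ℝ} (hB : IsInnerProduct B)
    {D : 𝔤 →ₗ[ℝ] 𝔤 →ₗ[ℝ] 𝔤} (hD : IsLeviCivita B D) {n : Submodule ℝ 𝔤} {N : 𝔤}
    (hn : ∀ x y : 𝔤, ⁅x, y⁆ ∈ n) (hN : ∀ y ∈ n, B N y = 0) {y : 𝔤} {ν : ℝ}
    (hev : ⁅N, y⁆ = ν • y) : -(ν ^ 2 * B y y) ≤ B (curv D y N N) y := by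
  have t := hD.1
  have m := hD.2
  have sy := hB.1
  have hNN : D N N = 0 := nabla_normal hB hD hn hN
  have hv : D N y = D y N + ν • y := by rw [← hev, ← t N y]; abel
  have h1 : B (D N y) y = 0 := by
    have := m N y y
    rw [sy y] at this; linarith
  have h2 : B (D y N) y = -(ν * B y y) := by
    rw [hv] at h1
    simp only [map_add, LinearMap.add_apply, map_smul, LinearMap.smul_apply, smul_eq_mul] at h1
    linarith
  have hc : curv D y N N = -(D N (D y N)) + ν • D y N := by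
    unfold curv
    rw [hNN, ← lie_skew y N, hev]
    simp
  have h3 : B (D N (D y N)) y = -B (D y N) (D N y) := by
    have := m N (D y N) y
    linarith
  have h4 : B (curv D y N N) y = B (D y N) (D y N) + 2 * ν * B (D y N) y := by
    rw [hc]
    simp only [map_add, LinearMap.add_apply, map_smul, LinearMap.smul_apply, smul_eq_mul, map_neg,
      LinearMap.neg_apply, h3, hv]
    ring
  have h5 : 0 ≤ B (D y N + ν • y) (D y N + ν • y) := by
    by_cases h : D y N + ν • y = 0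
    · rw [h]; simp
    · exact (hB.2 _ h).le
  simp only [map_add, LinearMap.add_apply, map_smul, LinearMap.smul_apply, smul_eq_mul,
    sy y (D y N)] at h5
  rw [h4]
  rw [h2] at h5 ⊢
  nlinarith [h5]

/-- The plane of `N` and of an eigenvector of the adjoint of `ad N` with eigenvalue `ν` has
curvature at most `-ν² / |N|²`. -/
theorem coeigen_estimate {B : 𝔤 →ₗ[ℝ] 𝔤 →ₗ[ℝ] ℝ} (hB : IsInnerProduct B)
    {D : 𝔤 →ₗ[ℝ] 𝔤 →ₗ[ℝ] 𝔤} (hD : IsLeviCivita B D) {n : Submodule ℝ 𝔤} {N : 𝔤}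
    (hn : ∀ x y : 𝔤, ⁅x, y⁆ ∈ n) (hN : ∀ y ∈ n, B N y = 0)
    (hs : ∀ x : 𝔤, ∃ c : ℝ, ∃ y ∈ n, x = c • N + y) {w : 𝔤} (hw : w ∈ n) {ν : ℝ}
    (hev : ∀ z ∈ n, B w ⁅N, z⁆ = ν * B w z) : B (curv D w N N) w ≤ -(ν ^ 2 * B w w) := by
  have t := hD.1
  have m := hD.2
  have sy := hB.1
  have hNN : D N N = 0 := nabla_normal hB hD hn hN
  -- symmetry of the shape operator
  have hsym : ∀ z z', z ∈ n → z' ∈ n → B (D z N) z' = B (D z' N) z := by
    intro z z' hz hz'
    have h1 := m z N z'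
    have h2 := m z' N z
    have h3 := congrArg (fun u => B N u) (t z z')
    simp only [map_sub] at h3
    have h4 := hN _ (hn z z')
    linarith
  have hsum : D w N + D N w = -(ν • w) := by
    apply inner_injective hB
    intro z
    obtain ⟨c, y, hy, rfl⟩ := hs z
    have e1 : B (D w N) N = 0 := by
      have := m w N N
      rw [sy N] at this; linarith
    have e2 : B (D N w) N = 0 := by
      have := m N w N
      rw [hNN, map_zero] at this; linarith
    have e3 : B w N = 0 := by rw [sy]; exact hN w hw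
    have e4 : B (D w N) y = B (D y N) w := hsym w y hw hy
    have e5 : B (D N w) y = -(B (D y N) w) - ν * B w y := by
      have h1 := m N w y
      have h2 := congrArg (fun u => B w u) (t N y)
      simp only [map_sub] at h2
      rw [hev y hy] at h2
      rw [sy w (D y N)] at h2
      linarith
    simp only [map_add, LinearMap.add_apply, map_smul, smul_eq_mul, map_neg, LinearMap.neg_apply,
      LinearMap.smul_apply, e1, e2, e3, e4, e5]
    ring
  set u := D w N with hu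
  have hv : D N w = -(ν • w) - u := by rw [← hsum]; abel
  have h1 : B (D N w) w = 0 := by
    have := m N w w
    rw [sy w] at this; linarith
  have h2 : B u w = -(ν * B w w) := by
    rw [hv] at h1
    simp only [map_sub, map_neg, LinearMap.sub_apply, LinearMap.neg_apply, map_smul,
      LinearMap.smul_apply, smul_eq_mul] at h1
    linarith
  have hz : ⁅w, N⁆ = (2 : ℝ) • u + ν • w := by
    rw [← t w N, hv, ← hu]; module
  have h3 : B (D N u) w = -B u (D N w) := by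
    have := m N u w
    linarith
  have h4 : B (D ⁅w, N⁆ N) w = B u ⁅w, N⁆ := hsym _ _ (hn _ _) hw
  have h5 : B (curv D w N N) w = -3 * B u u - 2 * ν * B u w := by
    unfold curv
    rw [hNN, map_zero, ← hu]
    simp only [map_sub, LinearMap.sub_apply, h3, h4, map_zero, LinearMap.zero_apply]
    rw [hz, hv]
    simp only [map_sub, map_neg, map_smul, smul_eq_mul, map_add]
    ring
  have h6 : 0 ≤ B (u + ν • w) (u + ν • w) := by
    by_cases h : u + ν • w = 0
    · rw [h]; simp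
    · exact (hB.2 _ h).le
  simp only [map_add, LinearMap.add_apply, map_smul, LinearMap.smul_apply, smul_eq_mul,
    sy w u] at h6
  rw [h5]
  rw [h2] at h6 ⊢
  nlinarith [h6]

end Metric

/-! ### The grading -/

section Grading

variable {𝔤 : Type*} [LieRing 𝔤] [LieAlgebra ℝ 𝔤] {s : ℕ} {V : ℕ → Submodule ℝ 𝔤} {A : 𝔤}

/-- the summands of `𝔤` -/
def W (V : ℕ → Submodule ℝ 𝔤) (A : 𝔤) (s : ℕ) (i : Fin (s + 1)) : Submodule ℝ 𝔤 :=
  if i = 0 then Submodule.span ℝ {A} else V i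

/-- the eigenspaces of `ad A` -/
def E (A : 𝔤) (μ : ℝ) : Submodule ℝ 𝔤 := Module.End.eigenspace (LieAlgebra.ad ℝ 𝔤 A) μ

theorem mem_E {A x : 𝔤} {μ : ℝ} : x ∈ E A μ ↔ ⁅A, x⁆ = μ • x := by
  rw [E, Module.End.mem_eigenspace_iff]; rfl

theorem W_le_E (h : IsHeintzeCarnot 𝔤 s V A) (i : Fin (s + 1)) :
    W V A s i ≤ E A ((i : ℕ) : ℝ) := by
  intro x hx
  rw [mem_E]
  unfold W at hx
  split_ifs at hx with h0
  · subst h0
    obtain ⟨c, rfl⟩ := Submodule.mem_span_singleton.mp hx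
    simp
  · refine h.ad_apply i ?_ (Nat.lt_succ_iff.mp i.2) x hx
    exact Nat.one_le_iff_ne_zero.mpr fun h' => h0 (Fin.ext h')

/-- the sum of the summands with index in `T` -/
def S (V : ℕ → Submodule ℝ 𝔤) (A : 𝔤) (s : ℕ) (T : Set (Fin (s + 1))) : Submodule ℝ 𝔤 :=
  ⨆ i ∈ T, W V A s i

theorem W_le_S {T : Set (Fin (s + 1))} {i : Fin (s + 1)} (hi : i ∈ T) : W V A s i ≤ S V A s T :=
  le_iSup₂_of_le i hi le_rfl

theorem disjoint_S (h : IsHeintzeCarnot 𝔤 s V A) {μ : ℝ} {T : Set (Fin (s + 1))}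
    (hT : ∀ i ∈ T, ((i : ℕ) : ℝ) ≠ μ) : Disjoint (E A μ) (S V A s T) := by
  refine Disjoint.mono_right ?_ (Module.End.eigenspaces_iSupIndep (LieAlgebra.ad ℝ 𝔤 A) μ)
  refine iSup₂_le fun i hi => ?_
  exact le_iSup₂_of_le ((i : ℕ) : ℝ) (hT i hi) (W_le_E h i)

theorem W_sup_S (h : IsHeintzeCarnot 𝔤 s V A) (i : Fin (s + 1)) :
    W V A s i ⊔ S V A s {i}ᶜ = ⊤ := by
  rw [eq_top_iff, ← h.isInternal.submodule_iSup_eq_top]
  refine iSup_le fun j => ?_
  by_cases hj : j = i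
  · subst hj; exact le_sup_left
  · exact le_sup_of_le_right (W_le_S (V := V) (A := A) (i := j) hj)

theorem E_eq (h : IsHeintzeCarnot 𝔤 s V A) (i : Fin (s + 1)) : E A ((i : ℕ) : ℝ) = W V A s i := by
  have hd : Disjoint (E A ((i : ℕ) : ℝ)) (S V A s {i}ᶜ) := by
    apply disjoint_S h
    intro j hj hji
    exact hj (Fin.ext (by exact_mod_cast hji))
  have h1 : E A ((i : ℕ) : ℝ) ⊓ (W V A s i ⊔ S V A s {i}ᶜ) =
      W V A s i ⊔ (E A ((i : ℕ) : ℝ) ⊓ S V A s {i}ᶜ) := by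
    rw [inf_comm, sup_inf_assoc_of_le _ (W_le_E h i), inf_comm (S V A s {i}ᶜ)]
  rw [W_sup_S h, inf_top_eq, hd.eq_bot, sup_bot_eq] at h1
  exact h1

theorem E_eq_bot (h : IsHeintzeCarnot 𝔤 s V A) {k : ℕ} (hk : s < k) : E A (k : ℝ) = ⊥ := by
  have hd : Disjoint (E A (k : ℝ)) (S V A s Set.univ) := by
    apply disjoint_S h
    intro j _ hj
    have : (j : ℕ) = k := by exact_mod_cast hj
    have := j.2
    omega
  have htop : S V A s Set.univ = ⊤ := by
    rw [eq_top_iff, ← h.isInternal.submodule_iSup_eq_top]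
    exact iSup_le fun j => W_le_S (V := V) (A := A) (i := j) (Set.mem_univ j)
  rw [htop] at hd
  exact disjoint_top.mp hd

/-- the ideal `𝔫` is `F 1`; more generally `F j` is the sum of the `V i` with `i ≥ j` -/
def F (V : ℕ → Submodule ℝ 𝔤) (A : 𝔤) (s j : ℕ) : Submodule ℝ 𝔤 := S V A s {i | j ≤ (i : ℕ)}

theorem E_le_F (h : IsHeintzeCarnot 𝔤 s V A) {k j : ℕ} (hk : j ≤ k) : E A (k : ℝ) ≤ F V A s j := by
  by_cases hks : k ≤ s
  · have := E_eq h ⟨k, Nat.lt_succ_iff.mpr hks⟩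
    simp only at this
    rw [this]
    exact W_le_S (V := V) (A := A) (T := {i | j ≤ (i : ℕ)}) (i := ⟨k, Nat.lt_succ_iff.mpr hks⟩) hk
  · rw [E_eq_bot h (not_le.mp hks)]; exact bot_le

theorem lie_mem_E {x y : 𝔤} {i j : ℕ} (hx : x ∈ E A (i : ℝ)) (hy : y ∈ E A (j : ℝ)) :
    ⁅x, y⁆ ∈ E A ((i + j : ℕ) : ℝ) := by
  rw [mem_E] at *
  rw [leibniz_lie, hx, hy, smul_lie, lie_smul]
  push_cast
  rw [add_smul]

theorem lie_mem_F (h : IsHeintzeCarnot 𝔤 s V A) {x y : 𝔤} {i j : ℕ} (hx : x ∈ F V A s i)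
    (hy : y ∈ F V A s j) : ⁅x, y⁆ ∈ F V A s (i + j) := by
  have key : ∀ p : Fin (s + 1), i ≤ (p : ℕ) → ∀ x ∈ W V A s p, ∀ y ∈ F V A s j,
      ⁅x, y⁆ ∈ F V A s (i + j) := by
    intro p hp x hx y hy
    have : F V A s j ≤ (F V A s (i + j)).comap (LieAlgebra.ad ℝ 𝔤 x : 𝔤 →ₗ[ℝ] 𝔤) := by
      refine iSup₂_le fun q hq z hz => ?_
      have h1 := lie_mem_E (W_le_E h p hx) (W_le_E h q hz)
      exact E_le_F h (add_le_add hp hq) h1
    exact this hy
  have : F V A s i ≤ (F V A s (i + j)).comap (LieAlgebra.ad ℝ 𝔤 y : 𝔤 →ₗ[ℝ] 𝔤) := by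
    refine iSup₂_le fun p hp x hx => ?_
    have h1 := key p hp x hx y hy
    rw [Submodule.mem_comap]
    have : (LieAlgebra.ad ℝ 𝔤 y) x = -⁅x, y⁆ := by
      rw [LieAlgebra.ad_apply, lie_skew]
    rw [this]
    exact neg_mem h1
  have h2 := this hx
  rw [Submodule.mem_comap, LieAlgebra.ad_apply, ← lie_skew] at h2
  exact (Submodule.neg_mem_iff _).mp h2

theorem decomp (h : IsHeintzeCarnot 𝔤 s V A) (x : 𝔤) : ∃ c : ℝ, ∃ y ∈ F V A s 1, x = c • A + y := by
  have hx : x ∈ W V A s 0 ⊔ S V A s {0}ᶜ := by rw [W_sup_S h]; trivial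
  obtain ⟨u, hu, y, hy, rfl⟩ := Submodule.mem_sup.mp hx
  have hu' : u ∈ Submodule.span ℝ {A} := by simpa [W] using hu
  obtain ⟨c, rfl⟩ := Submodule.mem_span_singleton.mp hu'
  refine ⟨c, y, ?_, rfl⟩
  have hle : S V A s {0}ᶜ ≤ F V A s 1 := by
    refine iSup₂_le fun i hi => W_le_S ?_
    exact Nat.one_le_iff_ne_zero.mpr fun h' => hi (Fin.ext h')
  exact hle hy

theorem lie_mem_n (h : IsHeintzeCarnot 𝔤 s V A) (x y : 𝔤) : ⁅x, y⁆ ∈ F V A s 1 := by
  obtain ⟨c, x', hx', rfl⟩ := decomp h x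
  obtain ⟨d, y', hy', rfl⟩ := decomp h y
  have hA : ∀ z ∈ F V A s 1, ⁅A, z⁆ ∈ F V A s 1 := by
    intro z hz
    have hA0 : A ∈ F V A s 0 := by
      have : A ∈ W V A s 0 := by simp [W, Submodule.mem_span_singleton_self]
      exact W_le_S (T := {i : Fin (s + 1) | 0 ≤ (i : ℕ)}) (i := 0) (by simp) this
    have := lie_mem_F h hA0 hz
    simpa using this
  have hnn : ⁅x', y'⁆ ∈ F V A s 1 := by
    have h2 := lie_mem_F h hx' hy'
    have hle : F V A s (1 + 1) ≤ F V A s 1 := by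
      refine iSup₂_le fun i hi => W_le_S ?_
      have hi' : 1 + 1 ≤ (i : ℕ) := hi
      show 1 ≤ (i : ℕ)
      omega
    exact hle h2
  have hxA : ⁅x', A⁆ ∈ F V A s 1 := by
    rw [← lie_skew]; exact neg_mem (hA _ hx')
  have hexp : ⁅c • A + x', d • A + y'⁆ = c • ⁅A, y'⁆ + (d • ⁅x', A⁆ + ⁅x', y'⁆) := by
    simp only [add_lie, lie_add, smul_lie, lie_smul, lie_self, smul_zero, zero_add]
    abel
  rw [hexp]
  exact add_mem (Submodule.smul_mem _ _ (hA _ hy'))
    (add_mem (Submodule.smul_mem _ _ hxA) hnn)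

theorem A_notMem (h : IsHeintzeCarnot 𝔤 s V A) : A ∉ F V A s 1 := by
  intro hA
  have hd : Disjoint (E A (0 : ℝ)) (F V A s 1) := by
    apply disjoint_S h
    intro i hi h0
    have : (i : ℕ) = 0 := by exact_mod_cast h0
    have hi' : 1 ≤ (i : ℕ) := hi
    omega
  have h0 : A ∈ E A 0 := by rw [mem_E]; simp
  have := Submodule.disjoint_def.mp hd A h0 hA
  exact h.ne_zero this

theorem V_one_ne_bot (h : IsHeintzeCarnot 𝔤 s V A) : V 1 ≠ ⊥ := by
  intro h1
  apply h.top_ne_bot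
  rcases h.one_le.eq_or_lt with hs | hs
  · rw [← hs]; exact h1
  · have h2 := h.bracket (s - 1) (by omega) (by omega)
    rw [show s - 1 + 1 = s by omega] at h2
    rw [← h2, eq_bot_iff, Submodule.span_le]
    rintro z ⟨x, hx, y, hy, rfl⟩
    rw [h1, Submodule.mem_bot] at hx
    rw [hx]; simp

end Grading

/-- **Theorem.** Let `G` be a Heintze group of Carnot type (no lattice is required in `[G, G]`),
`s` the step of `[G, G]`, and let `B` be a left-invariant Riemannian metric on `G` all of whose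
sectional curvatures lie in `[a, b]`, `a ≤ b < 0`. Then `b / a ≤ 1 / s ^ 2`. -/
theorem main (𝔤 : Type*) [LieRing 𝔤] [LieAlgebra ℝ 𝔤] [FiniteDimensional ℝ 𝔤] (s : ℕ)
    (V : ℕ → Submodule ℝ 𝔤) (A : 𝔤) (hG : IsHeintzeCarnot 𝔤 s V A)
    (B : 𝔤 →ₗ[ℝ] 𝔤 →ₗ[ℝ] ℝ) (hB : IsInnerProduct B)
    (D : 𝔤 →ₗ[ℝ] 𝔤 →ₗ[ℝ] 𝔤) (hD : IsLeviCivita B D)
    (a b : ℝ) (hab : a ≤ b) (hb : b < 0)
    (hsec : ∀ x y : 𝔤, LinearIndependent ℝ ![x, y] → a ≤ sec B D x y ∧ sec B D x y ≤ b) :
    b / a ≤ 1 / (s : ℝ) ^ 2 := by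
  set n := F V A s 1 with hn
  have hlie : ∀ x y : 𝔤, ⁅x, y⁆ ∈ n := lie_mem_n hG
  obtain ⟨e, he⟩ := exists_riesz hB
  -- the normal
  have hlt : n < ⊤ := lt_top_iff_ne_top.mpr fun h => A_notMem hG (by rw [← hn, h]; trivial)
  obtain ⟨f, hf0, hf⟩ := Submodule.exists_le_ker_of_lt_top n hlt
  set N := e.symm f with hNdef
  have hN : ∀ y ∈ n, B N y = 0 := fun y hy => by rw [hNdef, he]; exact hf hy
  have hN0 : N ≠ 0 := by
    intro h
    apply hf0
    rw [← e.apply_symm_apply f, ← hNdef, h, map_zero]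
  have hNN : 0 < B N N := hB.2 N hN0
  obtain ⟨l, X, hX, hNX⟩ := decomp hG N
  have hl : l ≠ 0 := by
    intro h
    rw [h, zero_smul, zero_add] at hNX
    have := hN X hX
    rw [← hNX] at this
    exact hNN.ne' this
  have hs : ∀ x : 𝔤, ∃ c : ℝ, ∃ y ∈ n, x = c • N + y := by
    intro x
    obtain ⟨c, y, hy, rfl⟩ := decomp hG x
    refine ⟨c / l, y - (c / l) • X, sub_mem hy (Submodule.smul_mem _ _ hX), ?_⟩
    rw [hNX, smul_add, smul_smul, div_mul_cancel₀ _ hl]
    abel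
  -- the operators `ad N - ν` on `𝔫`
  let T : ℝ → (n →ₗ[ℝ] n) := fun ν => LinearMap.restrict
    ((LieAlgebra.ad ℝ 𝔤 N : 𝔤 →ₗ[ℝ] 𝔤) - ν • LinearMap.id) (p := n) (q := n)
    (fun z hz => sub_mem (hlie _ _) (Submodule.smul_mem _ _ hz))
  have hT : ∀ ν (z : n), ((T ν z : n) : 𝔤) = ⁅N, (z : 𝔤)⁆ - ν • (z : 𝔤) := fun ν z => rfl
  have hli : ∀ y ∈ n, y ≠ 0 → LinearIndependent ℝ ![y, N] := by
    intro y hy hy0
    rw [LinearIndependent.pair_iff]
    intro c d hcd
    have h1 := congrArg (fun u => B N u) hcd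
    simp only [map_add, map_smul, smul_eq_mul, hN y hy, mul_zero, zero_add, map_zero] at h1
    have hd : d = 0 := (mul_eq_zero.mp h1).resolve_right hNN.ne'
    rw [hd, zero_smul, add_zero] at hcd
    exact ⟨(smul_eq_zero.mp hcd).resolve_right hy0, hd⟩
  have hsecN : ∀ y ∈ n, y ≠ 0 → a * (B y y * B N N) ≤ B (curv D y N N) y ∧
      B (curv D y N N) y ≤ b * (B y y * B N N) := by
    intro y hy hy0
    have h1 := hsec y N (hli y hy hy0)
    have hyy := hB.2 y hy0
    have h2 : B y N = 0 := by rw [hB.1]; exact hN y hy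
    have hpos : 0 < B y y * B N N := mul_pos hyy hNN
    unfold sec at h1
    rw [h2, zero_pow two_ne_zero, sub_zero, le_div_iff₀ hpos, div_le_iff₀ hpos] at h1
    exact h1
  -- an eigenvector with eigenvalue `l`
  have hev : ∃ y ∈ n, y ≠ 0 ∧ ⁅N, y⁆ = l • y := by
    have hns : ¬ Function.Surjective (T l) := by
      intro hsur
      -- the range is contained in `F 2`
      have hr : ∀ z ∈ n, ⁅N, z⁆ - l • z ∈ F V A s 2 := by
        intro z hz
        rw [hNX, add_lie, smul_lie]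
        have h1 : ⁅X, z⁆ ∈ F V A s 2 := by
          have := lie_mem_F hG hX hz
          simpa using this
        have h2 : ⁅A, z⁆ - z ∈ F V A s 2 := by
          have hle : n ≤ (F V A s 2).comap
              ((LieAlgebra.ad ℝ 𝔤 A : 𝔤 →ₗ[ℝ] 𝔤) - LinearMap.id) := by
            refine iSup₂_le fun i hi w hw => ?_
            have hw' := W_le_E hG i hw
            rw [mem_E] at hw'
            show ⁅A, w⁆ - w ∈ F V A s 2
            have hi1 : 1 ≤ (i : ℕ) := hi
            rcases hi1.eq_or_lt with hi' | hi'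
            · rw [hw', ← hi']; simp
            · have : ⁅A, w⁆ - w = ((i : ℕ) - 1 : ℝ) • w := by rw [hw', sub_smul, one_smul]
              rw [this]
              exact Submodule.smul_mem _ _
                (W_le_S (T := {i : Fin (s + 1) | 2 ≤ (i : ℕ)}) (i := i) hi' hw)
          exact hle hz
        have h3 : l • ⁅A, z⁆ + ⁅X, z⁆ - l • z = l • (⁅A, z⁆ - z) + ⁅X, z⁆ := by
          rw [smul_sub]; abel
        rw [h3]
        exact add_mem (Submodule.smul_mem _ _ h2) h1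
      obtain ⟨v, hv, hv0⟩ := Submodule.exists_mem_ne_zero_of_ne_bot (V_one_ne_bot hG)
      have h1s : 1 ≤ s := hG.one_le
      have hvW : v ∈ W V A s ⟨1, by omega⟩ := by
        simp only [W, Fin.mk_eq_zero, one_ne_zero, if_false]; exact hv
      have hvn : v ∈ n := W_le_S (T := {i : Fin (s + 1) | 1 ≤ (i : ℕ)}) (i := ⟨1, by omega⟩)
        (by simp) hvW
      obtain ⟨z, hz⟩ := hsur ⟨v, hvn⟩
      have hz' : ⁅N, (z : 𝔤)⁆ - l • (z : 𝔤) = v := by rw [← hT, hz]
      have hv2 : v ∈ F V A s 2 := by rw [← hz']; exact hr z z.2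
      have hd : Disjoint (E A (1 : ℝ)) (F V A s 2) := by
        apply disjoint_S hG
        intro i hi h0
        have : (i : ℕ) = 1 := by exact_mod_cast h0
        have hi' : 2 ≤ (i : ℕ) := hi
        omega
      have hvE : v ∈ E A (1 : ℝ) := by
        have := W_le_E hG ⟨1, by omega⟩ hvW
        simpa using this
      exact hv0 (Submodule.disjoint_def.mp hd v hvE hv2)
    have hni : ¬ Function.Injective (T l) := fun h =>
      hns (LinearMap.injective_iff_surjective.mp h)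
    have hker : LinearMap.ker (T l) ≠ ⊥ := fun h => hni (LinearMap.ker_eq_bot.mp h)
    obtain ⟨y, hy, hy0⟩ := Submodule.exists_mem_ne_zero_of_ne_bot hker
    refine ⟨y, y.2, fun h => hy0 (Subtype.ext h), ?_⟩
    have : (T l y : 𝔤) = 0 := by rw [LinearMap.mem_ker.mp hy]; rfl
    rw [hT] at this
    exact sub_eq_zero.mp this
  -- a coeigenvector with eigenvalue `l * s`
  have hco : ∃ w ∈ n, w ≠ 0 ∧ ∀ z ∈ n, B w ⁅N, z⁆ = (l * s) * B w z := by
    obtain ⟨v, hv, hv0⟩ := Submodule.exists_mem_ne_zero_of_ne_bot hG.top_ne_bot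
    have h1s : 1 ≤ s := hG.one_le
    have hvW : v ∈ W V A s ⟨s, by omega⟩ := by
      have : (⟨s, by omega⟩ : Fin (s + 1)) ≠ 0 := by
        intro h; have := congrArg Fin.val h; simp at this; omega
      simp only [W, this, if_false]; exact hv
    have hvn : v ∈ n := W_le_S (T := {i : Fin (s + 1) | 1 ≤ (i : ℕ)}) (i := ⟨s, by omega⟩)
      h1s hvW
    have hvE : v ∈ E A (s : ℝ) := W_le_E hG ⟨s, by omega⟩ hvW
    have hXv : ⁅X, v⁆ = 0 := by
      have hvF : v ∈ F V A s s := W_le_S (T := {i : Fin (s + 1) | s ≤ (i : ℕ)})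
        (i := ⟨s, by omega⟩) (by simp) hvW
      have h1 := lie_mem_F hG hX hvF
      have hbot : F V A s (1 + s) = ⊥ := by
        rw [eq_bot_iff]
        refine iSup₂_le fun i hi => ?_
        have : 1 + s ≤ (i : ℕ) := hi
        have := i.2
        omega
      rw [hbot] at h1
      exact (Submodule.mem_bot ℝ).mp h1
    have hNv : ⁅N, v⁆ = (l * s) • v := by
      rw [hNX, add_lie, smul_lie, hXv, mem_E.mp hvE, add_zero, smul_smul]
    have hni : ¬ Function.Injective (T (l * s)) := by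
      intro hinj
      have h1 : T (l * s) ⟨v, hvn⟩ = 0 := by
        apply Subtype.ext
        rw [hT, hNv]; simp
      have h2 := hinj (h1.trans (map_zero _).symm)
      exact hv0 (congrArg Subtype.val h2)
    have hns : ¬ Function.Surjective (T (l * s)) := fun h =>
      hni (LinearMap.injective_iff_surjective.mpr h)
    have hlt' : LinearMap.range (T (l * s)) < ⊤ :=
      lt_top_iff_ne_top.mpr fun h => hns (LinearMap.range_eq_top.mp h)
    obtain ⟨g, hg0, hg⟩ := Submodule.exists_le_ker_of_lt_top _ hlt'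
    have hB' : IsInnerProduct (B.domRestrict₁₂ n n) :=
      ⟨fun x y => hB.1 x y, fun x hx => hB.2 x fun h => hx (Subtype.ext h)⟩
    obtain ⟨e', he'⟩ := exists_riesz hB'
    refine ⟨e'.symm g, (e'.symm g).2, ?_, ?_⟩
    · intro h
      have : e'.symm g = 0 := Subtype.ext h
      apply hg0
      rw [← e'.apply_symm_apply g, this, map_zero]
    · intro z hz
      have h1 : g (T (l * s) ⟨z, hz⟩) = 0 := hg ⟨_, rfl⟩
      rw [← he'] at h1
      have h2 : B (e'.symm g : n) (⁅N, z⁆ - (l * s) • z) = 0 := h1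
      rw [map_sub, map_smul, smul_eq_mul] at h2
      linarith
  obtain ⟨y, hy, hy0, hye⟩ := hev
  obtain ⟨w, hw, hw0, hwe⟩ := hco
  have i1 := eigen_estimate hB hD hlie hN hye
  have i2 := coeigen_estimate hB hD hlie hN hs hw hwe
  have j1 := (hsecN y hy hy0).2
  have j2 := (hsecN w hw hw0).1
  have hyy := hB.2 y hy0
  have hww := hB.2 w hw0
  have k1 : -(b * B N N) ≤ l ^ 2 := by
    have : -(l ^ 2) * B y y ≤ (b * B N N) * B y y := by linarith
    have := le_of_mul_le_mul_right this hyy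
    linarith
  have k2 : (l * s) ^ 2 ≤ -(a * B N N) := by
    have : (a * B N N) * B w w ≤ -((l * s) ^ 2) * B w w := by linarith
    have := le_of_mul_le_mul_right this hww
    linarith
  have hs0 : (0 : ℝ) < (s : ℝ) ^ 2 := by
    have : 0 < s := hG.one_le
    positivity
  have ha : a < 0 := lt_of_le_of_lt hab hb
  have k3 : -b * (s : ℝ) ^ 2 ≤ -a := by
    have h1 : -(b * B N N) * (s : ℝ) ^ 2 ≤ l ^ 2 * (s : ℝ) ^ 2 :=
      mul_le_mul_of_nonneg_right k1 hs0.le
    have h2 : (-b * (s : ℝ) ^ 2) * B N N ≤ -a * B N N := by nlinarith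
    exact le_of_mul_le_mul_right h2 hNN
  rw [← neg_div_neg_eq, div_le_div_iff₀ (by linarith) hs0]
  linarith

end Q198.Heintze
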